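import Pool.Agent.H46.SQ.Targets

/-!
Module IDX of the board sr_modules (MP_04ff0f_nt).
-/

set_option autoImplicit false

open Finset

namespace Pool.Agent.H48.SR

open Pool.Agent.H46.SQ

theorem pp_prime (k : ℕ) : (pp k).Prime := Nat.prime_nth_prime _

theorem pp_mono {k m : ℕ} (h : k ≤ m) : pp k ≤ pp m := by
  unfold pp
  exact (Nat.nth_monotone Nat.infinite_setOfPred_prime) (by omega)

theorem pp_inj {k m : ℕ} (hk : 1 ≤ k) (hm : 1 ≤ m) (h : pp k = pp m) : k = m := by
  unfold pp at h
  have := Nat.nth_injective Nat.infinite_setOfPred_prime h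
  omega

/-- Module IDX. -/
theorem sr_IDX (hCOUNT : T_COUNT) (hNTH : T_NTH) : T_IDX := by
  obtain ⟨C, hC, hcount⟩ := hCOUNT
  obtain ⟨D, hD, hnth⟩ := hNTH
  -- constants
  have hlog2 : (0 : ℝ) < Real.log 2 := Real.log_pos (by norm_num)
  set E : ℝ := D + 1 / Real.log 2 + 1 / Real.log 2 with hE
  have hEpos : 0 < E := by positivity
  refine ⟨C * E, by positivity, ?_⟩
  intro N hN
  have hNR : (2 : ℝ) ≤ N := by exact_mod_cast hN
  have hlogN : Real.log 2 ≤ Real.log N := Real.log_le_log (by norm_num) hNR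
  have hlogpos : 0 < Real.log N := lt_of_lt_of_le hlog2 hlogN
  -- X
  set X : ℕ := max N (pp N) with hX
  have hNX : N ≤ X := le_max_left _ _
  have hpX : pp N ≤ X := le_max_right _ _
  have hX2 : 2 ≤ X := le_trans hN hNX
  have hXR : (X : ℝ) ≤ E * N * Real.log N := by
    have h1 : (pp N : ℝ) ≤ D * N * Real.log N := hnth N hN
    have h2 : (N : ℝ) ≤ (1 / Real.log 2) * N * Real.log N := by
      have : (1 : ℝ) ≤ (1 / Real.log 2) * Real.log N := by
        rw [one_div, inv_mul_eq_div, le_div_iff₀ hlog2]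
        linarith
      have hN0 : (0 : ℝ) ≤ N := by linarith
      nlinarith [mul_le_mul_of_nonneg_left this hN0]
    have h3 : 0 ≤ (D : ℝ) * N * Real.log N := by positivity
    have h4 : 0 ≤ (1 / Real.log 2) * N * Real.log N := by positivity
    have h5 : E * N * Real.log N = D * N * Real.log N + (1 / Real.log 2) * N * Real.log N
        + (1 / Real.log 2) * N * Real.log N := by rw [hE]; ring
    rw [hX, Nat.cast_max, h5]
    apply max_le <;> linarith
  have hcX := hcount X hX2
  -- the injection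
  have hcard : ((Finset.Icc 1 N).filter (fun k => ((pp k) ^ 2 - 2).Prime)).card ≤
      ((Finset.Icc 1 X).filter (fun n => n.Prime ∧ (n ^ 2 - 2).Prime)).card := by
    apply Finset.card_le_card_of_injOn pp
    · intro k hk
      have hk' := Finset.mem_coe.mp hk
      rw [Finset.mem_filter, Finset.mem_Icc] at hk'
      apply Finset.mem_coe.mpr
      rw [Finset.mem_filter, Finset.mem_Icc]
      refine ⟨⟨(pp_prime k).one_lt.le, le_trans (pp_mono hk'.1.2) hpX⟩, pp_prime k, hk'.2⟩
    · intro k hk m hm h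
      have hk' := Finset.mem_coe.mp hk
      have hm' := Finset.mem_coe.mp hm
      rw [Finset.mem_filter, Finset.mem_Icc] at hk' hm'
      exact pp_inj hk'.1.1 hm'.1.1 h
  have hcardR : ((((Finset.Icc 1 N).filter (fun k => ((pp k) ^ 2 - 2).Prime)).card : ℝ)) ≤
      ((((Finset.Icc 1 X).filter (fun n => n.Prime ∧ (n ^ 2 - 2).Prime)).card : ℝ)) := by
    exact_mod_cast hcard
  refine le_trans hcardR (le_trans hcX ?_)
  have hNXR : (N : ℝ) ≤ X := by exact_mod_cast hNX
  have hlogX : Real.log N ≤ Real.log X := Real.log_le_log (by linarith) hNXR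
  have hlogXpos : 0 < Real.log X := lt_of_lt_of_le hlogpos hlogX
  rw [div_le_div_iff₀ (by positivity) hlogpos]
  have hsq : (Real.log N) ^ 2 ≤ (Real.log X) ^ 2 := by
    apply pow_le_pow_left₀ hlogpos.le hlogX
  have hN0 : (0 : ℝ) ≤ N := by linarith
  calc C * X * Real.log N ≤ C * (E * N * Real.log N) * Real.log N := by
        apply mul_le_mul_of_nonneg_right _ hlogpos.le
        exact mul_le_mul_of_nonneg_left hXR hC.le
    _ = C * E * N * (Real.log N) ^ 2 := by ring
    _ ≤ C * E * N * (Real.log X) ^ 2 := by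
        apply mul_le_mul_of_nonneg_left hsq
        positivity

end Pool.Agent.H48.SR
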